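import Pool.Agent.K6.H33.NT.Stm

set_option autoImplicit false

/-! # The jets of a product of powers -/

namespace Pool.Agent.K6.H75.NT

open MvPolynomial Pool.Agent.W428.MOT Pool.Agent.TH192.DT Pool.Agent.TH192.MT
  Pool.Agent.TH192.MU Pool.Agent.K6.H33.NT

section

variable {K : Type} [Field K] {T : ℕ} {ι : Type} [Fintype ι]

/-- the partition of the jets -/
theorem jetsP_eq (G : Fin T → MvPolynomial ι ℤ) (a : Fin T → ℕ) (ha : ∀ t, 0 < a t)
    (W : Set (Pt K ι)) (N : ℕ) :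
    JetS (map (Int.castRingHom K) (∏ t, G t ^ a t)) W {c | c ≠ 0} N =
      ⋃ α ∈ box a N, SI (pS ι G) W α N := by
  classical
  ext z
  simp only [JetS, Set.mem_ofPred_eq, aeval_map_ev, Set.mem_iUnion, exists_prop,
    mem_box a ha]
  have hev : ev (ar z) (∏ t, G t ^ a t) = ∏ t, (ev (ar z) (G t)) ^ a t := by
    rw [map_prod]
    exact Finset.prod_congr rfl fun t _ => map_pow _ _ _
  rw [hev]
  constructor
  · rintro ⟨h1, h2, h3⟩
    have h7 : ∀ t, ∃ n, PowerSeries.coeff n (ev (ar z) (G t)) ≠ 0 := by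
      intro t
      by_contra h
      push Not at h
      apply h3
      have h4 : ev (ar z) (G t) = 0 :=
        PowerSeries.ext fun n => by rw [h n, map_zero]
      rw [Finset.prod_eq_zero (Finset.mem_univ t) (by rw [h4, zero_pow (ha t).ne']), map_zero]
    have hvan : Van (pS ι G) (fun t => Nat.find (h7 t)) (ar z) := by
      intro l j hj
      have := Nat.find_min (h7 l) hj
      push Not at this
      exact this
    obtain ⟨h4, h5⟩ := lead_prod a (fun t => Nat.find (h7 t)) (fun t => ev (ar z) (G t))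
      (fun t => hvan t)
    have h8 : PowerSeries.coeff (∑ t, a t * Nat.find (h7 t)) (∏ t, (ev (ar z) (G t)) ^ a t) ≠ 0 := by
      rw [h5]
      exact Finset.prod_ne_zero_iff.2 fun t _ => pow_ne_zero _ (Nat.find_spec (h7 t))
    refine ⟨fun t => Nat.find (h7 t), ?_, h1, hvan, fun t => ⟨t, rfl, Nat.find_spec (h7 t)⟩⟩
    rcases lt_trichotomy (∑ t, a t * Nat.find (h7 t)) N with h | h | h
    · exact absurd (h2 _ h) h8
    · exact h
    · exact absurd (h4 _ h) h3
  · rintro ⟨α, hN, h1, h2, h3⟩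
    obtain ⟨h6, h6'⟩ := lead_prod a α (fun t => ev (ar z) (G t)) (fun t => h2 t)
    refine ⟨h1, fun k hk => h6 k (by rw [hN]; exact hk), ?_⟩
    rw [hN] at h6'
    rw [h6']
    refine Finset.prod_ne_zero_iff.2 fun t _ => pow_ne_zero _ ?_
    obtain ⟨l, hl, hl'⟩ := h3 t
    have hl2 : l = t := hl
    subst hl2
    exact hl'

theorem zetaP_eq {R : Type} [CommRing R] (M : Meas K R) (v : R) (hv : M.L * v = 1)
    (G : Fin T → MvPolynomial ι ℤ) (a : Fin T → ℕ) (ha : ∀ t, 0 < a t)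
    {W : Set (Pt K ι)} (hW : Constr W) :
    (PowerSeries.mk fun N => M.χ (ι × Fin (N + 1))
      (JetS (map (Int.castRingHom K) (∏ t, G t ^ a t)) W {c | c ≠ 0} N) *
        v ^ (N * Fintype.card ι)) =
      gf a (mm M v (pS ι G) (VI (pS ι G) W)) := by
  classical
  ext N
  unfold gf
  rw [PowerSeries.coeff_mk, PowerSeries.coeff_mk, jetsP_eq G a ha,
    Pool.Agent.W375.MT.chi_biUnion M _ _ (fun q _ => constr_SI (pS ι G) hW q N)
    (fun q _ q' _ h => jetsI_disj (pS ι G) W N q q' h), Finset.sum_mul]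
  refine Finset.sum_congr rfl fun α hα => ?_
  rw [mem_box _ ha] at hα
  rw [chi_SI M (pS ι G) hW]
  exact mm_eq M v hv (pS ι G) (constr_VI (pS ι G) hW) α N
    (fun t => le_of_sum a ha hα.le t)

end

/-- Piece JD. -/
theorem pieceJ : S_JD := by
  intro T ι _ G a ha W hW D hD
  obtain ⟨M, hL, hM⟩ := exists_meas ℂ
  have hC : Cone (pS ι G) (VI (K := ℂ) (pS ι G) W) := by
    rintro v ⟨h1, h2⟩ μ hμ
    refine ⟨h1, fun t => ?_⟩
    obtain ⟨l, hl, hl'⟩ := h2 t
    exact ⟨l, hl, mul_ne_zero (hμ _) hl'⟩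
  have h1 := hD M hL Empty (VI (pS ι G) W) (constr_VI (pS ι G) hW) (gd_VI (pS ι G) W) hC
  rw [← zetaP_eq M _ (hv hL) G a ha hW] at h1
  have h2 : zetaM (map (Int.castRingHom ℂ) (∏ t, G t ^ a t)) W {c | c ≠ 0} =
      PowerSeries.mk fun N => M.χ (ι × Fin (N + 1))
      (JetS (map (Int.castRingHom ℂ) (∏ t, G t ^ a t)) W {c | c ≠ 0} N) *
        (((Lu ℂ)⁻¹ : (MK ℂ)ˣ) : MK ℂ) ^ (N * Fintype.card ι) := by
    unfold zetaM
    congr 1
    funext N
    rw [hM, inv_pow_eq, Nat.mul_comm]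
  rw [h2]
  exact h1

end Pool.Agent.K6.H75.NT
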